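import Pool.Agent.H71.O2.Nuc
import Pool.Agent.H40.O2.Cl

set_option autoImplicit false

/-!
MP_52f71e_al, case O1: the end of the proof. If `th(a,b)` fixes `b` for all `a`, `b` in a simple
automorphic loop of odd order then the loop is associative.
-/

namespace ALoop

open Equiv

variable {Q : Type*} {G : Subgroup (Perm Q)} {L : Q → Perm Q} {J : Perm Q} {e : Q}

/-- three involutions -/
theorem inv3 {M : Type*} [Group M] {a b c : M} (ha : a * a = 1) (hb : b * b = 1) (hc : c * c = 1)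
    (h1 : a * c * a = c * a * c) (h2 : b * c * b = c * b * c)
    (h3 : a * (c * b * c) * a = (c * b * c) * a * (c * b * c)) :
    Commute (a * b) (c * (a * b) * c) := by
  have e1 : c * (a * b) * c = (c * a * c) * (c * b * c) := by
    calc c * (a * b) * c = c * a * 1 * b * c := by group
      _ = c * a * (c * c) * b * c := by rw [hc]
      _ = _ := by group
  show a * b * (c * (a * b) * c) = c * (a * b) * c * (a * b)
  have l1 : a * b * (c * (a * b) * c) = a * b * c * a * b * c := by group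
  have r1 : c * (a * b) * c * (a * b) = a * b * c * a * b * c := by
    rw [e1, ← h1, ← h2]
    -- `a c a b c b a b`
    have h3' : (b * c * b) * a * (b * c * b) = a * (b * c * b) * a := by
      rw [h2]; exact h3.symm
    calc a * c * a * (b * c * b) * (a * b) = a * c * a * (b * c * b) * a * b * 1 := by group
      _ = a * c * a * ((b * c * b) * a * (b * c * b)) * (b * c * b)⁻¹ * b := by group
      _ = a * c * a * (a * (b * c * b) * a) * (b * c * b)⁻¹ * b := by rw [h3']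
      _ = a * c * (a * a) * (b * c * b) * a * (b * c * b)⁻¹ * b := by group
      _ = a * c * (b * c * b) * a * (b * c * b)⁻¹ * b := by rw [ha]; group
      _ = a * c * (c * b * c) * a * (b * c * b)⁻¹ * b := by rw [h2]
      _ = a * (c * c) * b * c * a * (b * c * b)⁻¹ * b := by group
      _ = a * b * c * a * ((b * c * b)⁻¹ * b) := by rw [hc]; group
      _ = a * b * c * a * (b⁻¹ * c⁻¹) := by group
      _ = a * b * c * a * (b * c) := by
          rw [inv_eq_of_mul_eq_one_left hb, inv_eq_of_mul_eq_one_left hc]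
      _ = _ := by group
  rw [l1, r1]

namespace AL0

variable (L J) in
/-- the inner mapping `a(x,y) = L_{xy}⁻¹ L_x L_y` -/
def _root_.ALoop.Aa (L : Q → Perm Q) (x y : Q) : Perm Q := (L (L x y))⁻¹ * L x * L y

theorem Aa_mem (h : AL0 G L J e) (x y : Q) : Aa L x y ∈ G :=
  G.mul_mem (G.mul_mem (G.inv_mem (h.memL _)) (h.memL _)) (h.memL _)

theorem Aa_e (h : AL0 G L J e) (x y : Q) : Aa L x y e = e := by
  unfold Aa
  rw [Perm.mul_apply, Perm.mul_apply, h.Le, Perm.inv_eq_iff_eq, h.Le]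

theorem Aa_x (h : AL0 G L J e) (x y : Q) : Aa L x y x = x := by
  unfold Aa
  rw [Perm.mul_apply, Perm.mul_apply, Perm.inv_eq_iff_eq, ← h.Rt_app x y, ← Perm.mul_apply, h.flex,
    Perm.mul_apply, h.Rt_app]

theorem aut' (h : AL0 G L J e) {g : Perm Q} (hg : g ∈ G) (he : g e = e) (x y : Q) :
    g (L x y) = L (g x) (g y) := by
  rw [← h.equi g hg he, Perm.mul_apply, Perm.mul_apply, inv_apply']

theorem Aa_conj (h : AL0 G L J e) {g : Perm Q} (hg : g ∈ G) (he : g e = e) (x y : Q) :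
    g * Aa L x y * g⁻¹ = Aa L (g x) (g y) := by
  unfold Aa
  rw [← h.aut' hg he, ← h.equi g hg he, ← h.equi g hg he x, ← h.equi g hg he y]
  group

theorem Th_rel (_h : AL0 G L J e) (a b : Q) : L a * Rt L J b = Rt L J b * L a * Th L J a b := by
  unfold Th; group

end AL0

variable (hk : ∀ a b, Th L J a b b = b)

namespace AL0

section

variable (h : AL0 G L J e)
include h hk

theorem e_fa (a b : Q) : Th L J a b a = a := by
  have h1 := hk (J b) (J a)
  rw [h.Th_inv, Perm.inv_eq_iff_eq] at h1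
  have h2 := h.fixJ (h.Th_mem a b) (h.Th_e a b) h1.symm
  rwa [h.JJ] at h2

theorem e_La (a b : Q) : Th L J a b * L a = L a * Th L J a b :=
  h.comL (h.Th_mem a b) (h.Th_e a b) (h.e_fa hk a b)

theorem e_Lb (a b : Q) : Th L J a b * L b = L b * Th L J a b :=
  h.comL (h.Th_mem a b) (h.Th_e a b) (hk a b)

theorem e_Rb (a b : Q) : Th L J a b * Rt L J b = Rt L J b * Th L J a b :=
  h.comR (h.Th_mem a b) (h.Th_e a b) (hk a b)

theorem e_Tb (a b : Q) : Th L J a b * Tx L J b = Tx L J b * Th L J a b := by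
  unfold Tx
  have h1 := h.e_Lb hk a b
  have h2 := h.e_Rb hk a b
  have h3 : Th L J a b * (Rt L J b)⁻¹ = (Rt L J b)⁻¹ * Th L J a b := by
    rw [mul_inv_eq_iff_eq_mul, mul_assoc, h2]; group
  calc Th L J a b * (L b * (Rt L J b)⁻¹) = (Th L J a b * L b) * (Rt L J b)⁻¹ := by group
    _ = L b * (Th L J a b * (Rt L J b)⁻¹) := by rw [h1]; group
    _ = _ := by rw [h3]; group

/-- `th(a, b⁻¹) = th(a, b)⁻¹` -/
theorem e_Jb (a b : Q) : Th L J a (J b) = (Th L J a b)⁻¹ := by
  have h1 := h.K1 a b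
  rw [h.e_Tb hk a b] at h1
  have h2 := mul_left_cancel h1
  rw [← h2, inv_inv]

theorem e_anti (a b : Q) : Th L J b a = (Th L J a b)⁻¹ := by
  have h1 := h.K2 a b
  rw [h.e_Tb hk a b] at h1
  have h2 := mul_left_cancel h1
  rw [h.e_Jb hk] at h2
  rw [← h2, inv_inv]

theorem e_Ja (a b : Q) : Th L J (J a) b = (Th L J a b)⁻¹ := by
  rw [h.e_anti hk b (J a), h.e_Jb hk, h.e_anti hk a b, inv_inv]

/-- inverse property -/
theorem e_RR (b : Q) : Rt L J b * Rt L J (J b) = 1 := by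
  set g := Rt L J b * Rt L J (J b) with hg
  have hge : g e = e := by
    rw [hg, Perm.mul_apply, h.Rt_e, h.Rt_app, h.JL]
  have hc : ∀ a, L a * g = g * L a := by
    intro a
    have r1 := h.Th_rel a b
    have r2 := h.Th_rel a (J b)
    rw [h.e_Jb hk] at r2
    have c1 : Th L J a b * Rt L J (J b) = Rt L J (J b) * Th L J a b :=
      h.comR (h.Th_mem a b) (h.Th_e a b) (h.fixJ (h.Th_mem a b) (h.Th_e a b) (hk a b))
    calc L a * g = (L a * Rt L J b) * Rt L J (J b) := by rw [hg]; group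
      _ = Rt L J b * L a * (Th L J a b * Rt L J (J b)) := by rw [r1]; group
      _ = Rt L J b * (L a * Rt L J (J b)) * Th L J a b := by rw [c1]; group
      _ = Rt L J b * Rt L J (J b) * L a * ((Th L J a b)⁻¹ * Th L J a b) := by rw [r2]; group
      _ = g * L a := by rw [hg]; group
  ext a
  have h1 := congrArg (fun p : Perm Q => p e) (hc a)
  simp only [Perm.mul_apply, hge, h.Le] at h1
  rw [← h1]; rfl

theorem e_Rinv (b : Q) : Rt L J (J b) = (Rt L J b)⁻¹ :=
  eq_inv_of_mul_eq_one_right (h.e_RR hk b)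

theorem e_Linv (b : Q) : L (J b) = (L b)⁻¹ := by
  have h1 := h.e_Rinv hk b
  rw [← h.JRJ b, ← h.JLJ b] at *
  have h2 : Rt L J b = (J * L b * J)⁻¹ := by rw [h1, inv_inv]
  rw [h2, mul_inv_rev, mul_inv_rev, h.Jinv]
  calc J * (J * ((L b)⁻¹ * J)) * J = (J * J) * (L b)⁻¹ * (J * J) := by group
    _ = _ := by rw [h.JJ1]; group

/-- powers of `L_z` that fix `e` are trivial -/
theorem e_pow_e (z : Q) (k : ℕ) (hz : (L z ^ k) e = e) : L z ^ k = 1 := by
  have hG : L z ^ k ∈ G := G.pow_mem (h.memL z) k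
  have hJ := h.comJ _ hG hz
  have h1 : J * L z * J = (Rt L J z)⁻¹ := by rw [h.JLJ, h.e_Rinv hk]
  have h2 : L z ^ k = ((Rt L J z)⁻¹) ^ k := by
    have h3 : J * L z ^ k * J⁻¹ = (J * L z * J⁻¹) ^ k := (conj_pow).symm
    rw [h.Jinv, h1] at h3
    rw [← h3, ← hJ, mul_assoc, h.JJ1, mul_one]
  ext a
  have r1 := h.Th_rel a z
  have c1 : (Rt L J z)⁻¹ * Th L J a z = Th L J a z * (Rt L J z)⁻¹ := by
    rw [inv_mul_eq_iff_eq_mul, ← mul_assoc, ← h.e_Rb hk a z]; group
  have h4 : (L a)⁻¹ * (Rt L J z)⁻¹ * L a = (Rt L J z)⁻¹ * Th L J a z := by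
    have c2 : Th L J a z = (L a)⁻¹ * (Rt L J z)⁻¹ * L a * Rt L J z := rfl
    calc (L a)⁻¹ * (Rt L J z)⁻¹ * L a = ((L a)⁻¹ * (Rt L J z)⁻¹ * L a * Rt L J z) * (Rt L J z)⁻¹ := by
          group
      _ = Th L J a z * (Rt L J z)⁻¹ := by rw [← c2]
      _ = _ := c1.symm
  have h5 : (L a)⁻¹ * ((Rt L J z)⁻¹) ^ k * L a = ((Rt L J z)⁻¹) ^ k * Th L J a z ^ k := by
    have h6 : (L a)⁻¹ * ((Rt L J z)⁻¹) ^ k * ((L a)⁻¹)⁻¹ = ((L a)⁻¹ * (Rt L J z)⁻¹ * ((L a)⁻¹)⁻¹) ^ k :=
      (conj_pow).symm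
    rw [inv_inv, h4, (show Commute ((Rt L J z)⁻¹) (Th L J a z) from c1).mul_pow] at h6
    exact h6
  rw [← h2] at h5
  have h7 : L z ^ k * L a = L a * (L z ^ k * Th L J a z ^ k) := by
    rw [← h5]; group
  have h8 := congrArg (fun p : Perm Q => p e) h7
  simp only [Perm.mul_apply, h.Le] at h8
  have h9 : (Th L J a z ^ k) e = e := by
    clear h5 h7 h8
    induction k with
    | zero => rfl
    | succ n _ =>
      have : ∀ n : ℕ, (Th L J a z ^ n) e = e := by
        intro n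
        induction n with
        | zero => rfl
        | succ n ih => rw [pow_succ, Perm.mul_apply, h.Th_e, ih]
      exact this _
  rw [h9, hz, h.Le] at h8
  rw [h8]; rfl

theorem e_pow (z y : Q) (k : ℕ) (hz : (L z ^ k) y = y) : L z ^ k = 1 := by
  set T := Tx L J y with hT
  have hTG := h.Tx_mem y
  have hTe := h.Tx_e y
  have hTe' : T⁻¹ e = e := by rw [Perm.inv_eq_iff_eq, hT, hTe]
  set z' := T⁻¹ z with hz'
  have h1 : T⁻¹ * L z * T = L z' := by
    have := h.equi T⁻¹ (G.inv_mem hTG) hTe' z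
    rwa [inv_inv] at this
  have h2 : (L y)⁻¹ * L z * L y = L z' * Th L J z' y := by
    rw [h.L_eq y, ← hT]
    have : (Rt L J y)⁻¹ * L z' * Rt L J y = L z' * Th L J z' y := by unfold Th; group
    rw [← this, ← h1]
    group
  have h3 : (L y)⁻¹ * L z ^ k * L y = L z' ^ k * Th L J z' y ^ k := by
    have h6 : (L y)⁻¹ * (L z) ^ k * ((L y)⁻¹)⁻¹ = ((L y)⁻¹ * L z * ((L y)⁻¹)⁻¹) ^ k :=
      (conj_pow).symm
    rw [inv_inv, h2, (show Commute (L z') (Th L J z' y) from (h.e_La hk z' y).symm).mul_pow] at h6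
    exact h6
  have h9 : (Th L J z' y ^ k) e = e := by
    have : ∀ n : ℕ, (Th L J z' y ^ n) e = e := by
      intro n
      induction n with
      | zero => rfl
      | succ n ih => rw [pow_succ, Perm.mul_apply, h.Th_e, ih]
    exact this _
  have h4 : (L z' ^ k) e = e := by
    have h5 := congrArg (fun p : Perm Q => p e) h3
    simp only [Perm.mul_apply, h.Le] at h5
    rw [h9, hz] at h5
    rw [← h5, Perm.inv_eq_iff_eq, h.Le]
  have h5 := h.e_pow_e hk z' k h4
  have h6 : T⁻¹ * L z ^ k * T = L z' ^ k := by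
    have h7 : T⁻¹ * (L z) ^ k * (T⁻¹)⁻¹ = (T⁻¹ * L z * (T⁻¹)⁻¹) ^ k := (conj_pow).symm
    rw [inv_inv, h1] at h7
    exact h7
  rw [h5] at h6
  calc L z ^ k = T * (T⁻¹ * L z ^ k * T) * T⁻¹ := by group
    _ = 1 := by rw [h6]; group

theorem e_odd [Finite Q] (hc : Odd (Nat.card Q)) (z : Q) : Odd (orderOf (L z)) := by
  classical
  by_contra hev
  rw [Nat.not_odd_iff_even] at hev
  obtain ⟨m, hm⟩ := hev
  have hpos : 0 < orderOf (L z) := orderOf_pos _
  have : Fintype Q := Fintype.ofFinite Q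
  have : Fact (Nat.Prime 2) := ⟨Nat.prime_two⟩
  have h1 : (L z ^ m) ^ 2 ^ 1 = 1 := by
    rw [pow_one, ← pow_mul, mul_two, ← hm, pow_orderOf_eq_one]
  have h2 : ¬ 2 ∣ Fintype.card Q := by
    rw [← Nat.card_eq_fintype_card]
    exact hc.not_two_dvd_nat
  obtain ⟨a, ha⟩ := Equiv.Perm.exists_fixed_point_of_prime h2 h1
  have h3 := h.e_pow hk z a m ha
  have h4 := Nat.le_of_dvd (by omega) (orderOf_dvd_of_pow_eq_one h3)
  omega

/-- `a(x,u) = a(u,x) th(x,u)` -/
theorem e_A (x u : Q) : Aa L x u = Aa L u x * Th L J x u := by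
  set T := Tx L J u with hT
  have hTG := h.Tx_mem u
  have hTe := h.Tx_e u
  have hTu := h.Tx_x u
  have h1 : T * L x * T⁻¹ = L (T x) := h.equi T hTG hTe x
  have h2 : L (T x) u = L u x := by
    have h3 : Rt L J u (T x) = L u x := by
      rw [← Perm.mul_apply, hT, ← h.Tx_R, Perm.mul_apply]
      have := congrArg (fun p : Perm Q => p x) (h.L_eq u)
      simp only [Perm.mul_apply] at this
      exact this.symm
    rwa [h.Rt_app] at h3
  have h4 : L (T x) * L u = L u * L x * Th L J x u := by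
    rw [← h1]
    have h5 : T = L u * (Rt L J u)⁻¹ := rfl
    rw [h5]; unfold Th; group
  have h5 : Aa L (T x) u = Aa L u x * Th L J x u := by
    unfold Aa
    rw [h2]
    calc (L (L u x))⁻¹ * L (T x) * L u = (L (L u x))⁻¹ * (L (T x) * L u) := by group
      _ = _ := by rw [h4]; group
  have h6 : T * Aa L x u * T⁻¹ = Aa L (T x) u := by
    rw [h.Aa_conj hTG hTe, hTu]
  have c0 : Aa L u x * T = T * Aa L u x := by
    rw [hT]; unfold Tx
    have c1 := h.comL (h.Aa_mem u x) (h.Aa_e u x) (h.Aa_x u x)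
    have c2 := h.comR (h.Aa_mem u x) (h.Aa_e u x) (h.Aa_x u x)
    have c3 : Aa L u x * (Rt L J u)⁻¹ = (Rt L J u)⁻¹ * Aa L u x := by
      rw [mul_inv_eq_iff_eq_mul, mul_assoc, c2]; group
    calc Aa L u x * (L u * (Rt L J u)⁻¹) = (Aa L u x * L u) * (Rt L J u)⁻¹ := by group
      _ = L u * (Aa L u x * (Rt L J u)⁻¹) := by rw [c1]; group
      _ = _ := by rw [c3]; group
  have c4 := h.e_Tb hk x u
  rw [← hT] at c4
  calc Aa L x u = T⁻¹ * (T * Aa L x u * T⁻¹) * T := by group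
    _ = T⁻¹ * Aa L u x * (Th L J x u * T) := by rw [h6, h5]; group
    _ = T⁻¹ * (Aa L u x * T) * Th L J x u := by rw [c4]; group
    _ = _ := by rw [c0]; group

theorem Aa_y (x y : Q) : Aa L x y y = y := by
  rw [h.e_A hk x y, Perm.mul_apply, hk, h.Aa_x]

theorem Aa_J (x y : Q) : Aa L (J y) (J x) = (Aa L x y)⁻¹ := by
  have hfix : Aa L x y (L x y) = L x y := by
    rw [h.aut' (h.Aa_mem x y) (h.Aa_e x y), h.Aa_x, h.Aa_y hk]
  have h1 := h.comL (h.Aa_mem x y) (h.Aa_e x y) hfix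
  have h2 : L x * L y = L (L x y) * Aa L x y := by unfold Aa; group
  have h3 : Aa L (J y) (J x) = L (L x y) * (L x * L y)⁻¹ := by
    unfold Aa
    rw [← h.aaip, h.e_Linv hk, h.e_Linv hk, h.e_Linv hk, inv_inv]
    group
  rw [h3, h2, mul_inv_rev]
  rw [← mul_assoc, mul_inv_eq_iff_eq_mul, mul_inv_eq_iff_eq_mul, mul_assoc, ← h1]
  group

/-- `R_{xb}⁻¹ R_b R_x = a(x,b)⁻¹` -/
theorem e_r (x b : Q) : (Rt L J (L x b))⁻¹ * Rt L J b * Rt L J x = (Aa L x b)⁻¹ := by
  have h1 : J * Aa L (J b) (J x) * J = (Rt L J (L x b))⁻¹ * Rt L J b * Rt L J x := by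
    unfold Aa Rt
    rw [← h.aaip, mul_inv_rev, mul_inv_rev, h.Jinv]
    calc J * ((L (J (L x b)))⁻¹ * L (J b) * L (J x)) * J =
          J * (L (J (L x b)))⁻¹ * 1 * L (J b) * 1 * L (J x) * J := by group
      _ = J * (L (J (L x b)))⁻¹ * (J * J) * L (J b) * (J * J) * L (J x) * J := by rw [h.JJ1]
      _ = _ := by group
  rw [← h1, ← h.comJ _ (h.Aa_mem _ _) (h.Aa_e _ _), mul_assoc, h.JJ1, mul_one, h.Aa_J hk]

/-- `th(v,b)` and `a(x,b)` agree at `vx` -/
theorem e_agree (v x b : Q) : Th L J v b (L v x) = Aa L x b (L v x) := by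
  have h1 := h.e_r hk x b
  have h2 : (Rt L J b)⁻¹ * Rt L J (L x b) = Rt L J x * Aa L x b := by
    have h3 : Aa L x b = ((Rt L J (L x b))⁻¹ * Rt L J b * Rt L J x)⁻¹ := by rw [h1, inv_inv]
    rw [h3]; group
  have h4 : L v (Th L J v b x) = L (Aa L x b v) x := by
    have h5 : L v * Th L J v b = (Rt L J b)⁻¹ * L v * Rt L J b := by unfold Th; group
    have h6 := congrArg (fun p : Perm Q => p x) h5
    simp only [Perm.mul_apply] at h6
    rw [h6, h.Rt_app b x, ← h.Rt_app (L x b) v, ← Perm.mul_apply, h2, Perm.mul_apply, h.Rt_app]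
  rw [h.aut' (h.Th_mem v b) (h.Th_e v b), h.e_fa hk, h4, h.aut' (h.Aa_mem x b) (h.Aa_e x b),
    h.Aa_x]

theorem e_agree' (v x b : Q) : (Th L J v b)⁻¹ (L x v) = Aa L (J x) b (L x v) := by
  have h1 := h.e_agree hk (J v) (J x) b
  rw [← h.aaip, h.e_Ja hk] at h1
  have h2 := h.comJ _ (h.Aa_mem (J x) b) (h.Aa_e (J x) b)
  have h3 : (Th L J v b)⁻¹ * J = J * (Th L J v b)⁻¹ := by
    rw [inv_mul_eq_iff_eq_mul, ← mul_assoc, h.Th_J]; group
  have h4 := congrArg (fun p : Perm Q => p (L x v)) h2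
  have h5 := congrArg (fun p : Perm Q => p (L x v)) h3
  simp only [Perm.mul_apply] at h4 h5
  rw [h4, h5] at h1
  exact J.injective h1

theorem e_A1 (x b z : Q) : Aa L x b z = Th L J (L z (J x)) b z := by
  have h1 := h.e_agree hk (L z (J x)) x b
  have h2 : L (L z (J x)) x = z := by
    have h3 := congrArg (fun p : Perm Q => p z) (h.e_RR hk x)
    simp only [Perm.mul_apply] at h3
    rw [h.Rt_app, h.Rt_app] at h3
    exact h3
  rw [h2] at h1
  exact h1.symm

theorem e_A2 (x b z : Q) : Aa L x b z = Th L J ((L z)⁻¹ (J x)) b z := by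
  have h1 := h.e_agree' hk (L x z) (J x) b
  have h2 : L (J x) (L x z) = z := by
    rw [h.e_Linv hk, inv_apply']
  rw [h2, h.JJ] at h1
  rw [← h1, ← h.e_Ja hk, h.aaip, h.e_Linv hk z]

/-- `a(x,b) = th(x,b)⁻¹` -/
theorem e_AT [Finite Q] (hc : Odd (Nat.card Q)) (x b : Q) : Aa L x b = (Th L J x b)⁻¹ := by
  ext z
  have h1 : ∀ y, Th L J (L z y) b z = Th L J ((L z)⁻¹ y) b z := by
    intro y
    have := (h.e_A1 hk (J y) b z).symm.trans (h.e_A2 hk (J y) b z)
    rwa [h.JJ] at this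
  have h2 : ∀ y, Th L J ((L z ^ 2) y) b z = Th L J y b z := by
    intro y
    have := h1 (L z y)
    rw [inv_apply'] at this
    rw [pow_two, Perm.mul_apply, this]
  have h3 : ∀ (k : ℕ) (y : Q), Th L J (((L z ^ 2) ^ k) y) b z = Th L J y b z := by
    intro k
    induction k with
    | zero => intro y; rfl
    | succ n ih =>
      intro y
      rw [pow_succ, Perm.mul_apply, ih, h2]
  obtain ⟨j, hj⟩ := h.e_odd hk hc z
  have h4 : (L z ^ 2) ^ (j + 1) = L z := by
    rw [← pow_mul, show 2 * (j + 1) = (2 * j + 1) + 1 by ring, pow_succ, ← hj, pow_orderOf_eq_one,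
      one_mul]
  have h5 := h3 (j + 1) (J x)
  rw [h4] at h5
  rw [h.e_A1 hk, h5, h.e_Ja hk]

theorem e_cube [Finite Q] (hc : Odd (Nat.card Q)) (x u : Q) : Th L J x u ^ 3 = 1 := by
  have h1 := h.e_A hk x u
  rw [h.e_AT hk hc, h.e_AT hk hc, h.e_anti hk x u, inv_inv] at h1
  rw [pow_succ, pow_two, ← h1]
  group

theorem e_L3 [Finite Q] (hc : Odd (Nat.card Q)) (x y : Q) :
    L x ^ 3 * Rt L J y = Rt L J y * L x ^ 3 := by
  have h1 : (Rt L J y)⁻¹ * L x * Rt L J y = L x * Th L J x y := by unfold Th; group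
  have h6 : (Rt L J y)⁻¹ * (L x) ^ 3 * ((Rt L J y)⁻¹)⁻¹ =
      ((Rt L J y)⁻¹ * L x * ((Rt L J y)⁻¹)⁻¹) ^ 3 := (conj_pow).symm
  rw [inv_inv, h1, (show Commute (L x) (Th L J x y) from (h.e_La hk x y).symm).mul_pow,
    h.e_cube hk hc, mul_one] at h6
  calc L x ^ 3 * Rt L J y = Rt L J y * ((Rt L J y)⁻¹ * L x ^ 3 * Rt L J y) := by group
    _ = _ := by rw [h6]

end

end AL0

/-- **the end of case O1** -/
theorem AL.end_O1 [Finite Q] (h : AL G L J e) (hc : Odd (Nat.card Q))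
    (hfix : ∀ x, J x = x → x = e) (hk : ∀ a b, Th L J a b b = b) : Assoc L := by
  by_contra hna
  have h0 := h.al0
  have hJJ := h.JJ1
  -- exponent three
  have h3 : ∀ x, L x ^ 3 = 1 := by
    intro x
    set c := (L x ^ 3) e with hcdef
    have h1 : L x ^ 3 = L c := by
      ext y
      have h2 := congrArg (fun p : Perm Q => p e) (h0.e_L3 hk hc x y)
      simp only [Perm.mul_apply] at h2
      rw [h0.Rt_e, h0.Rt_app, ← hcdef] at h2
      exact h2
    by_cases hce : c = e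
    · rw [h1, hce, h0.Le1]
    · exfalso
      apply hna
      refine h.assoc_of_mid hce (fun a b => ?_)
      have h2 : Th L J c a = 1 := by
        have h4 := h0.e_L3 hk hc x a
        rw [h1] at h4
        unfold Th
        calc (L c)⁻¹ * (Rt L J a)⁻¹ * L c * Rt L J a =
              (L c)⁻¹ * (Rt L J a)⁻¹ * (L c * Rt L J a) := by group
          _ = 1 := by rw [h4]; group
      have h5 : Aa L a c = 1 := by
        rw [h0.e_AT hk hc, ← h0.e_anti hk a c, h2]
      have h6 : L a * L c = L (L a c) := by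
        have : L a * L c = L (L a c) * Aa L a c := by unfold Aa; group
        rw [this, h5, mul_one]
      rw [← h6]; rfl
  -- the products
  have hP : ∀ x, (D L J x * J) ^ 3 = 1 := by
    intro x
    have h1 : D L J x * J = L x * Rt L J x := by
      have h2 : (Rt L J (J x))⁻¹ = Rt L J x := by rw [h0.e_Rinv hk, inv_inv]
      rw [← h2, ← h0.JLJ x, mul_inv_rev, mul_inv_rev, h.Jinv]
      unfold D; group
    have h4 : Rt L J x ^ 3 = 1 := by
      have h5 : J * L (J x) ^ 3 * J⁻¹ = (J * L (J x) * J⁻¹) ^ 3 := (conj_pow).symm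
      rw [h3, h.Jinv, mul_one, hJJ] at h5
      exact h5.symm
    rw [h1, (show Commute (L x) (Rt L J x) from h0.flex x).mul_pow, h3, h4, one_mul]
  have hPP : ∀ x y, (D L J x * D L J y) ^ 3 = 1 := by
    intro x y
    have h1 := h.D_conj (G.inv_mem (h.memL y)) x
    have h2 := h.D_conj (G.inv_mem (h.memL y)) y
    have h4 : (L y)⁻¹ y = e := by rw [Perm.inv_eq_iff_eq, h.Le]
    rw [h4, h.D_e] at h2
    have h5 : (L y)⁻¹ * (D L J x * D L J y) * ((L y)⁻¹)⁻¹ = D L J ((L y)⁻¹ x) * J := by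
      calc (L y)⁻¹ * (D L J x * D L J y) * ((L y)⁻¹)⁻¹ =
            ((L y)⁻¹ * D L J x * ((L y)⁻¹)⁻¹) * ((L y)⁻¹ * D L J y * ((L y)⁻¹)⁻¹) := by group
        _ = _ := by rw [h1, h2]
    have h6 : (L y)⁻¹ * (D L J x * D L J y) ^ 3 * ((L y)⁻¹)⁻¹ =
        ((L y)⁻¹ * (D L J x * D L J y) * ((L y)⁻¹)⁻¹) ^ 3 := (conj_pow).symm
    rw [h5, hP] at h6
    have h7 := congrArg (fun g => L y * g * (L y)⁻¹) h6
    simpa [mul_assoc] using h7
  have hDD : ∀ x, D L J x * D L J x = 1 := fun x => h.D_sq x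
  have hDi : ∀ x, (D L J x)⁻¹ = D L J x := fun x => inv_eq_of_mul_eq_one_left (hDD x)
  have hbr : ∀ x y, D L J x * D L J y * D L J x = D L J y * D L J x * D L J y := by
    intro x y
    have h1 := hPP x y
    have h2 : D L J x * D L J y * D L J x * (D L J y * D L J x * D L J y) = 1 := by
      rw [← h1, pow_succ, pow_two]; group
    have h4 := eq_inv_of_mul_eq_one_left h2
    rw [h4, mul_inv_rev, mul_inv_rev, hDi, hDi]
    group
  have hall : ∀ x, x = e := by
    intro x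
    have hmem : D L J x * J ∈ G := by
      have := h.D_mul_mem x e
      rwa [h.D_e] at this
    have h1 : D L J x * J = 1 := by
      refine h.claimAL hna hmem (h.odd_P hfix x) (q := e) ?_ ?_
      · rw [h.D_e, mul_inv_rev, h.Jinv, hDi]
        calc J * (D L J x * J) * J = J * D L J x * (J * J) := by group
          _ = _ := by rw [hJJ, mul_one]
      · intro r
        have hcj : D L J r * J * D L J r = D L J (D L J r e) := by
          have h2 := h.D_conjGJ (h.D_mem r) e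
          rw [h.D_e, hDi] at h2
          exact h2
        refine inv3 (hDD x) hJJ (hDD r) (hbr x r) ?_ ?_
        · have := hbr e r
          rwa [h.D_e] at this
        · rw [hcj]
          exact hbr _ _
    have h2 : D L J x = D L J e := by
      rw [h.D_e]
      have h4 := eq_inv_of_mul_eq_one_left h1
      rw [h4, h.Jinv]
    exact h.D_inj h2
  apply h.Jne
  ext x
  rw [hall x, h.Je]; rfl

end ALoop
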